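import Pool.Agent.Lib.MP_ec63c8_an.HC.Final

set_option autoImplicit false
open MeasureTheory Pool.Agent.Lib.MP_ec63c8_an.HC

namespace Pool.Agent.Results.MP_ec63c8_an.HilbertOnly

/-- For `1 ≤ p < ∞`, a nonzero complex Banach space `X` and a measure with infinitely many disjoint
sets of positive finite measure, the resolvent characterisation of stable orbits holds on
`L^p (μ; X)`, or on `l^p (X)`, exactly when `p = 2` and `X` is isomorphic to a Hilbert space, and
exactly when it does not fail in the strong form. -/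
theorem result :
    ∀ (p : ENNReal) [Fact (1 ≤ p)], p ≠ ⊤ →
    ∀ (X : Type) [NormedAddCommGroup X] [NormedSpace ℂ X] [CompleteSpace X] [Nontrivial X]
      (Ω : Type) [MeasurableSpace Ω] (μ : Measure Ω),
      (∃ A : ℕ → Set Ω, (∀ n, MeasurableSet (A n)) ∧
        Pairwise (fun m n => Disjoint (A m) (A n)) ∧ ∀ n, 0 < μ (A n) ∧ μ (A n) < ⊤) →
      List.TFAE [p = 2 ∧ Hilbertian X, HoldsOn (Lp X p μ), HoldsOn (lp (fun _ : ℕ => X) p),
        ¬ FailsOn (Lp X p μ) 1, ¬ FailsOnCopies (lp (fun _ : ℕ => X) p)] := by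
  intro p _ hp X _ _ _ _ Ω _ μ hμ
  tfae_have 2 ↔ 1 := iff_Lp hp hμ
  tfae_have 3 ↔ 1 := iff_lp hp
  tfae_have 2 → 4 := fun h hF => hF.not_holdsOn h
  tfae_have 4 → 1 := fun h => by_contra fun hX => h (fails_Lp hp hX hμ)
  tfae_have 3 → 5 := fun h hF =>
    (hF _ (ContinuousLinearMap.id ℂ _) (ContinuousLinearMap.id ℂ _) fun _ => rfl).not_holdsOn h
  tfae_have 5 → 1 := fun h => by_contra fun hX => h (fails_compl hp hX)
  tfae_finish

end Pool.Agent.Results.MP_ec63c8_an.HilbertOnly
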