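import Pool.Agent.Lib.MP_ec63c8_an.MultB

set_option autoImplicit false
open Filter Topology MeasureTheory

namespace Pool.Agent.Results.MP_ec63c8_an.LpSufficiencyFails

/-- For `1 ≤ p < 2`, multiplication by `exp (i t x)` on `L^p[0,1]` is a norm continuous group of
isometries (so no nonzero orbit is stable) for which the resolvent condition holds for every
vector. -/
theorem result :
    ∀ (p : ENNReal) [Fact (1 ≤ p)], p < 2 →
      ∃ T : ℝ → (Lp ℂ p (volume : Measure unitInterval) →L[ℂ]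
          Lp ℂ p (volume : Measure unitInterval)),
        (∀ (t : ℝ) (g : Lp ℂ p (volume : Measure unitInterval)),
          (T t g : unitInterval → ℂ) =ᵐ[volume]
            fun x => Complex.exp (Complex.I * (t : ℂ) * ((x : ℝ) : ℂ)) * g x) ∧
        T 0 = 1 ∧
        (∀ s t : ℝ, T (s + t) = T s * T t) ∧
        Continuous T ∧
        (∀ (t : ℝ) (g : Lp ℂ p (volume : Measure unitInterval)), ‖T t g‖ = ‖g‖) ∧
        (∃ g : Lp ℂ p (volume : Measure unitInterval), g ≠ 0) ∧
        ∀ g : Lp ℂ p (volume : Measure unitInterval),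
          (g ≠ 0 → ¬ Tendsto (fun t : ℝ => T t g) atTop (𝓝 0)) ∧
          (∀ a : ℝ, 0 < a → ∀ s : ℝ, IntegrableOn (fun t : ℝ =>
            Complex.exp (-(((a : ℂ) + (s : ℂ) * Complex.I) * (t : ℂ))) • T t g)
            (Set.Ioi (0 : ℝ))) ∧
          (∀ a : ℝ, 0 < a → ENNReal.ofReal a *
            ∫⁻ s : ℝ, ((‖∫ t in Set.Ioi (0 : ℝ),
              Complex.exp (-(((a : ℂ) + (s : ℂ) * Complex.I) * (t : ℂ))) • T t g‖₊ : ENNReal)) ^ 2
            ≤ ENNReal.ofReal (Real.pi * ‖g‖ ^ 2)) ∧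
          Tendsto
            (fun a : ℝ => ENNReal.ofReal a *
              ∫⁻ s : ℝ, ((‖∫ t in Set.Ioi (0 : ℝ),
                Complex.exp (-(((a : ℂ) + (s : ℂ) * Complex.I) * (t : ℂ))) • T t g‖₊ :
                  ENNReal)) ^ 2)
            (𝓝[>] (0 : ℝ)) (𝓝 0) := by
  intro p _ hp
  open Pool.Agent.Lib.MP_ec63c8_an.Mult in
  exact ⟨grp p, grp_ae p, grp_zero p, grp_add p, continuous_grp p, norm_grp p, exists_ne_zero p,
    fun g => ⟨not_stable p g, fun a ha s => integrableOn_grp p g ha s,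
      fun a ha => resolvent_le p hp g ha, resolvent_tendsto p hp g⟩⟩

end Pool.Agent.Results.MP_ec63c8_an.LpSufficiencyFails
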