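import Pool.Agent.Lib.MP_ec63c8_an.AH.Main

set_option autoImplicit false
open Filter Topology MeasureTheory

namespace Pool.Agent.Results.MP_ec63c8_an.TwistedHilbert

/-- The resolvent condition (with a lower limit in place of the limit) implies stability of the
orbit for every bounded strongly continuous semigroup on a Banach space that embeds into an
iterated twisted sum of asymptotically Hilbertian spaces. -/
theorem result :
    ∀ (X : Type) [NormedAddCommGroup X] [NormedSpace ℂ X] [CompleteSpace X]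
      (W : Type) [NormedAddCommGroup W] [NormedSpace ℂ W] (J : X →L[ℂ] W),
      Pool.Agent.Lib.MP_ec63c8_an.AH.Tw (⊥ : Submodule ℂ W) →
      (∃ c : ℝ, 0 < c ∧ ∀ y : X, c * ‖y‖ ≤ ‖J y‖) →
      ∀ (T : ℝ → (X →L[ℂ] X)),
      T 0 = 1 →
      (∀ s t : ℝ, 0 ≤ s → 0 ≤ t → T (s + t) = T s * T t) →
      (∀ x : X, ContinuousOn (fun t : ℝ => T t x) (Set.Ici (0 : ℝ))) →
      (∃ M : ℝ, ∀ t : ℝ, 0 ≤ t → ‖T t‖ ≤ M) →
      ∀ x : X,
        liminf
          (fun a : ℝ => ENNReal.ofReal a *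
            ∫⁻ s : ℝ,
              ((‖∫ t in Set.Ioi (0 : ℝ),
                  Complex.exp (-(((a : ℂ) + (s : ℂ) * Complex.I) * (t : ℂ))) • T t x‖₊ :
                ENNReal)) ^ 2)
          (𝓝[>] (0 : ℝ)) = 0 →
        Tendsto (fun t : ℝ => T t x) atTop (𝓝 0) := by
  intro X _ _ _ W _ _ J hW ⟨c, hc, hJ⟩ T h0 h1 h2 ⟨M, h3⟩ x hx
  exact Pool.Agent.Lib.MP_ec63c8_an.AH.sufficiency ⟨h0, h1, h2, h3⟩ J hc hJ hW x hx

end Pool.Agent.Results.MP_ec63c8_an.TwistedHilbert
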